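import Pool.Agent.Helper22.TW.Stmts

/-! # MP_8312c9_nt, tw_mods: module PSI -/

set_option autoImplicit false

open Polynomial

namespace Pool.Agent.Helper22.TW

theorem psi_map {R S : Type} [CommRing R] [CommRing S] (φ : R →+* S) (e : Fin 3 → R) (n : ℕ) :
    (DN e n).1.map φ = (DN (fun i => φ (e i)) n).1 ∧ (DN e n).2.map φ = (DN (fun i => φ (e i)) n).2 := by
  induction n with
  | zero => exact ⟨Polynomial.map_X φ, Polynomial.map_one φ⟩
  | succ n ih =>
    obtain ⟨h1, h2⟩ := ih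
    constructor
    · simp only [DN, Polynomial.map_add, Polynomial.map_mul, Polynomial.map_sub, Polynomial.map_pow,
        Polynomial.map_C, Polynomial.map_ofNat, h1, h2, map_mul, map_sub]
    · simp only [DN, Polynomial.map_mul, Polynomial.map_sub,
        Polynomial.map_C, Polynomial.map_ofNat, h1, h2]

/-- `A - c B` is monic of degree `d` -/
theorem psi_sub {R : Type} [CommRing R] {N D : R[X]} {d : ℕ} (hN : N.Monic) (hd : N.natDegree = d) (hD : D.natDegree < d) (c : R) :
    (N - C c * D).Monic ∧ (N - C c * D).natDegree = d := by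
  have h1 : (C c * D).natDegree < N.natDegree := by
    rw [hd]
    exact (natDegree_C_mul_le c D).trans_lt hD
  have h2 : (C c * D).degree < N.degree := degree_lt_degree h1
  exact ⟨hN.sub_of_left h2, by rw [natDegree_sub_eq_left_of_natDegree_lt h1, hd]⟩

section

variable {R : Type} [CommRing R] [IsDomain R]

theorem psi_deg (e : Fin 3 → R) (n : ℕ) :
    (DN e n).1.Monic ∧ (DN e n).1.natDegree = 4 ^ n ∧ (DN e n).2.natDegree < 4 ^ n ∧
      (DN e n).2.coeff (4 ^ n - 1) = 4 ^ n := by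
  induction n with
  | zero =>
    refine ⟨monic_X, natDegree_X, ?_, ?_⟩
    · show (1 : R[X]).natDegree < 4 ^ 0
      rw [natDegree_one, pow_zero]
      exact one_pos
    · show (1 : R[X]).coeff (4 ^ 0 - 1) = 4 ^ 0
      simp
  | succ n ih =>
    obtain ⟨hN, hd, hD, hc⟩ := ih
    set N := (DN e n).1 with hNdef
    set D := (DN e n).2 with hDdef
    set d := 4 ^ n with hddef
    have hdpos : 0 < d := by positivity
    obtain ⟨a1, a2⟩ := psi_sub hN hd hD (e 0)
    obtain ⟨b1, b2⟩ := psi_sub hN hd hD (e 1)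
    obtain ⟨c1, c2⟩ := psi_sub hN hd hD (e 2)
    set A := N - C (e 0) * D with hA
    set B := N - C (e 1) * D with hB
    set K := N - C (e 2) * D with hK
    have hABK : (A * B * K).Monic := (a1.mul b1).mul c1
    have hABKd : (A * B * K).natDegree = 3 * d := by
      rw [(a1.mul b1).natDegree_mul c1, a1.natDegree_mul b1, a2, b2, c2]
      ring
    have h4 : (4 : R[X]) = C 4 := (map_ofNat C 4).symm
    have hD4 : (DN e (n + 1)).2 = C 4 * D * (A * B * K) := by
      show 4 * D * A * B * K = _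
      rw [h4]
      ring
    have hDle : (C 4 * D).natDegree ≤ d - 1 :=
      (natDegree_C_mul_le _ _).trans (by omega)
    have hN4 : (DN e (n + 1)).1 =
        C (e 0) * (DN e (n + 1)).2 + (A ^ 2 - C ((e 0 - e 1) * (e 0 - e 2)) * D ^ 2) ^ 2 := by
      rw [hD4]
      show 4 * C (e 0) * D * A * B * K + (A ^ 2 - C ((e 0 - e 1) * (e 0 - e 2)) * D ^ 2) ^ 2 = _
      rw [h4]
      ring
    have hD'le : (DN e (n + 1)).2.natDegree ≤ 4 * d - 1 := by
      rw [hD4]
      refine (natDegree_mul_le).trans ?_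
      rw [hABKd]
      omega
    have hA2 : (A ^ 2 - C ((e 0 - e 1) * (e 0 - e 2)) * D ^ 2).Monic ∧
        (A ^ 2 - C ((e 0 - e 1) * (e 0 - e 2)) * D ^ 2).natDegree = 2 * d := by
      apply psi_sub (a1.pow 2)
      · rw [a1.natDegree_pow, a2]
      · refine (natDegree_pow_le).trans_lt ?_
        omega
    have hA4m := hA2.1.pow 2
    have hA4d : ((A ^ 2 - C ((e 0 - e 1) * (e 0 - e 2)) * D ^ 2) ^ 2).natDegree = 4 * d := by
      rw [hA2.1.natDegree_pow, hA2.2]
      ring
    have hsm : (C (e 0) * (DN e (n + 1)).2).natDegree <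
        ((A ^ 2 - C ((e 0 - e 1) * (e 0 - e 2)) * D ^ 2) ^ 2).natDegree := by
      rw [hA4d]
      exact (natDegree_C_mul_le _ _).trans_lt (by omega)
    have h4d : 4 ^ (n + 1) = 4 * d := by
      rw [hddef]
      ring
    refine ⟨?_, ?_, ?_, ?_⟩
    · rw [hN4]
      exact hA4m.add_of_right (degree_lt_degree hsm)
    · rw [hN4, natDegree_add_eq_right_of_natDegree_lt hsm, hA4d, h4d]
    · rw [h4d]
      omega
    · have h5 : 4 ^ (n + 1) - 1 = (d - 1) + 3 * d := by
        rw [h4d]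
        omega
      rw [h5, hD4, coeff_mul_add_eq_of_natDegree_le hDle hABKd.le, coeff_C_mul, hc]
      have h6 : (A * B * K).coeff (3 * d) = 1 := by
        rw [← hABKd]
        exact hABK.coeff_natDegree
      rw [h6, mul_one, pow_succ]
      ring

end

theorem psi_step {M : Type} [Field M] [CharZero M] (e : Fin 3 → M) (he : Function.Injective e) (J : ℕ)
    (x y : M) (h : Eqn e x y) (hJ : (2 ^ J) • EE.pt he x y h = EE.pt he x y h) :
    ∀ n ≤ J, ∃ (x' y' : M) (h' : Eqn e x' y'), (2 ^ n) • EE.pt he x y h = EE.pt he x' y' h' ∧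
      (DN e n).2.eval x ≠ 0 ∧ (DN e n).1.eval x = x' * (DN e n).2.eval x := by
  have hne : ∀ n ≤ J, (2 ^ n) • EE.pt he x y h ≠ 0 := by
    intro n hn h0
    apply EE.pt_ne_zero he h
    rw [← hJ]
    obtain ⟨m, rfl⟩ := Nat.exists_eq_add_of_le hn
    rw [pow_add, mul_comm, mul_smul, h0, smul_zero]
  intro n
  induction n with
  | zero =>
    intro _
    refine ⟨x, y, h, ?_, ?_, ?_⟩
    · rw [pow_zero, one_smul]
    · show (1 : M[X]).eval x ≠ 0
      rw [eval_one]
      exact one_ne_zero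
    · show (X : M[X]).eval x = x * (1 : M[X]).eval x
      rw [eval_X, eval_one, mul_one]
  | succ n ih =>
    intro hn
    obtain ⟨x', y', h', h1, h2, h3⟩ := ih (by omega)
    have hs : (2 ^ (n + 1)) • EE.pt he x y h = EE.pt he x' y' h' + EE.pt he x' y' h' := by
      rw [pow_succ, mul_comm, mul_smul, h1, two_smul]
    have hy : y' ≠ 0 := by
      rintro rfl
      apply hne (n + 1) hn
      rw [hs]
      exact EE.add_self_zero he h'
    obtain ⟨x₃, y₃, h₃, h4, h5, -⟩ := EE.add_self he h' hy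
    have hE : y' ^ 2 = (x' - e 0) * (x' - e 1) * (x' - e 2) := h'
    have h6 : 4 * y' ^ 2 * x₃ =
        4 * e 0 * y' ^ 2 + ((x' - e 0) ^ 2 - (e 0 - e 1) * (e 0 - e 2)) ^ 2 := by
      have h7 : 4 * y' ^ 2 * x₃ =
          ((x' - e 0) * (x' - e 1) + (x' - e 0) * (x' - e 2) + (x' - e 1) * (x' - e 2)) ^ 2 +
            4 * y' ^ 2 * ((e 0 + e 1 + e 2) - 2 * x') := by
        rw [h5]
        field_simp
        ring
      rw [h7]
      linear_combination (4 * ((e 0 + e 1 + e 2) - 2 * x') - 4 * e 0) * hE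
    have hD : (DN e (n + 1)).2.eval x = 4 * (DN e n).2.eval x ^ 4 * y' ^ 2 := by
      simp only [DN, eval_mul, eval_sub, eval_C, eval_ofNat, h3]
      linear_combination (-4 * (DN e n).2.eval x ^ 4) * hE
    have hN : (DN e (n + 1)).1.eval x = (DN e n).2.eval x ^ 4 *
        (4 * e 0 * y' ^ 2 + ((x' - e 0) ^ 2 - (e 0 - e 1) * (e 0 - e 2)) ^ 2) := by
      simp only [DN, eval_add, eval_mul, eval_sub, eval_pow, eval_C, eval_ofNat, h3]
      linear_combination (-4 * e 0 * (DN e n).2.eval x ^ 4) * hE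
    refine ⟨x₃, y₃, h₃, ?_, ?_, ?_⟩
    · rw [hs, h4]
    · rw [hD]
      have h40 : (4 : M) ≠ 0 := by
        have := (Nat.cast_ne_zero (R := M)).2 (show (4 : ℕ) ≠ 0 by norm_num)
        exact_mod_cast this
      exact mul_ne_zero (mul_ne_zero h40 (pow_ne_zero _ h2)) (pow_ne_zero _ hy)
    · rw [hN, hD, ← h6]
      ring

theorem st_PSI : ST_PSI := by
  refine ⟨?_, ?_, ?_⟩
  · intro R S _ _ φ e J
    obtain ⟨h1, h2⟩ := psi_map φ e J
    rw [Psi, Polynomial.map_sub, Polynomial.map_mul, Polynomial.map_X, h1, h2]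
    rfl
  · intro R _ _ _ e J hJ h0
    obtain ⟨hN, hd, hD, hc⟩ := psi_deg e J
    have h1 : (Psi e J).coeff (4 ^ J) = 1 - 4 ^ J := by
      have hpos : 0 < 4 ^ J := by positivity
      obtain ⟨m, hm⟩ : ∃ m, 4 ^ J = m + 1 := ⟨4 ^ J - 1, by omega⟩
      have h2 : (DN e J).1.coeff (4 ^ J) = 1 := by
        rw [← hd]
        exact hN.coeff_natDegree
      rw [hm, Nat.add_sub_cancel] at hc
      rw [Psi, coeff_sub, h2]
      rw [hm, coeff_X_mul, hc]
    rw [h0, coeff_zero] at h1
    have h3 : ((4 ^ J : ℕ) : R) = ((1 : ℕ) : R) := by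
      push_cast
      linear_combination h1
    have h4 : 4 ^ J = 1 := Nat.cast_injective h3
    have h5 : 1 < 4 ^ J := Nat.one_lt_pow hJ.ne' (by norm_num)
    omega
  · intro M _ _ e he J hJ x y h hP
    obtain ⟨x', y', h', h1, h2, h3⟩ := psi_step e he J x y h hP J le_rfl
    have h4 : EE.pt he x y h = EE.pt he x' y' h' := by rw [← h1, hP]
    obtain ⟨h5, -⟩ := EE.pt_inj he h4
    rw [Psi, eval_sub, eval_mul, eval_X, h3, h5]
    ring

end Pool.Agent.Helper22.TW
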